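import Mathlib

/-!
# The boundary of a closed convex cone is connected
-/

set_option linter.unusedSectionVars false

namespace Pool.Agent.H3.LC

open Set

variable {E : Type*} [NormedAddCommGroup E] [NormedSpace ℝ E] [FiniteDimensional ℝ E]

/-- A closed convex cone `K` with an open part `U` which absorbs `K`, and a linear form `lam`
which is nonnegative on `K` and positive on `U`. -/
structure ConeData (K U : Set E) (lam : E →ₗ[ℝ] ℝ) : Prop where
  closed : IsClosed K
  isOpen : IsOpen U
  sub : U ⊆ K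
  add : ∀ x ∈ K, ∀ y ∈ K, x + y ∈ K
  smul : ∀ c : ℝ, 0 < c → ∀ x ∈ K, c • x ∈ K
  addU : ∀ x ∈ K, ∀ u ∈ U, x + u ∈ U
  smulU : ∀ c : ℝ, 0 < c → ∀ x ∈ U, c • x ∈ U
  lamK : ∀ x ∈ K, 0 ≤ lam x
  lamU : ∀ x ∈ U, 0 < lam x

namespace ConeData

variable {K U : Set E} {lam : E →ₗ[ℝ] ℝ} (h : ConeData K U lam) {p : E} (hp : p ∈ U)

include h hp

theorem nonempty (q : E) : {t : ℝ | q - t • p ∈ K}.Nonempty := by
  have hc : Continuous fun ε : ℝ => p + ε • q := by fun_prop
  have h0 : (0 : ℝ) ∈ (fun ε : ℝ => p + ε • q) ⁻¹' U := by simpa using hp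
  have hev : ∀ᶠ ε in nhdsWithin (0 : ℝ) (Ioi 0), p + ε • q ∈ U :=
    Filter.Eventually.filter_mono nhdsWithin_le_nhds ((h.isOpen.preimage hc).mem_nhds h0)
  obtain ⟨ε, h1, h2⟩ := (hev.and self_mem_nhdsWithin).exists
  have hε : 0 < ε := h2
  refine ⟨-ε⁻¹, ?_⟩
  have := h.smul ε⁻¹ (inv_pos.2 hε) _ (h.sub h1)
  rw [smul_add, smul_smul, inv_mul_cancel₀ hε.ne', one_smul] at this
  change q - (-ε⁻¹) • p ∈ K
  rw [neg_smul, sub_neg_eq_add, add_comm]
  exact this

theorem bddAbove (q : E) : BddAbove {t : ℝ | q - t • p ∈ K} := by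
  refine ⟨lam q / lam p, fun t ht => ?_⟩
  have h1 := h.lamK _ ht
  rw [map_sub, map_smul, smul_eq_mul] at h1
  rw [le_div_iff₀ (h.lamU p hp)]
  linarith

omit h hp in
/-- the exit time -/
noncomputable def tau (K : Set E) (p q : E) : ℝ := sSup {t : ℝ | q - t • p ∈ K}

theorem mem_tau (q : E) : q - tau K p q • p ∈ K := by
  have hc : Continuous fun t : ℝ => q - t • p := by fun_prop
  have hcl : IsClosed {t : ℝ | q - t • p ∈ K} := h.closed.preimage hc
  exact hcl.csSup_mem (h.nonempty hp q) (h.bddAbove hp q)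

theorem le_tau {q : E} {t : ℝ} (ht : q - t • p ∈ K) : t ≤ tau K p q :=
  le_csSup (h.bddAbove hp q) ht

theorem tau_notMem (q : E) : q - tau K p q • p ∉ U := by
  intro hU
  have hc : Continuous fun ε : ℝ => (q - tau K p q • p) - ε • p := by fun_prop
  have h0 : (0 : ℝ) ∈ (fun ε : ℝ => (q - tau K p q • p) - ε • p) ⁻¹' U := by simpa using hU
  have hev : ∀ᶠ ε in nhdsWithin (0 : ℝ) (Ioi 0), (q - tau K p q • p) - ε • p ∈ U :=
    Filter.Eventually.filter_mono nhdsWithin_le_nhds ((h.isOpen.preimage hc).mem_nhds h0)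
  obtain ⟨ε, h1, h2⟩ := (hev.and self_mem_nhdsWithin).exists
  have hε : 0 < ε := h2
  have h3 : q - (tau K p q + ε) • p ∈ K := by
    rw [add_smul, ← sub_sub]
    exact h.sub h1
  have := h.le_tau hp h3
  linarith

theorem tau_add (q q' : E) : tau K p q + tau K p q' ≤ tau K p (q + q') := by
  apply h.le_tau hp
  have := h.add _ (h.mem_tau hp q) _ (h.mem_tau hp q')
  rw [add_smul]
  convert this using 1
  abel

theorem tau_smul (c : ℝ) (hc : 0 < c) (q : E) : c * tau K p q ≤ tau K p (c • q) := by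
  apply h.le_tau hp
  have := h.smul c hc _ (h.mem_tau hp q)
  rwa [smul_sub, smul_smul] at this

theorem tau_zero_nonneg : 0 ≤ tau K p 0 := by
  apply h.le_tau hp
  obtain ⟨t, ht⟩ := h.nonempty hp 0
  have hcl : (0 : E) ∈ closure K := by
    have hc : Continuous fun ε : ℝ => ε • p := by fun_prop
    have hlim : Filter.Tendsto (fun ε : ℝ => ε • p) (nhdsWithin 0 (Ioi 0)) (nhds 0) := by
      have := (hc.tendsto 0).mono_left (nhdsWithin_le_nhds (s := Ioi (0 : ℝ)))
      simpa using this
    refine mem_closure_of_tendsto hlim ?_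
    filter_upwards [self_mem_nhdsWithin] with ε hε
    exact h.smul ε hε p (h.sub hp)
  rw [h.closed.closure_eq] at hcl
  simpa using hcl

theorem concave : ConcaveOn ℝ univ (tau K p) := by
  refine ⟨convex_univ, fun x _ y _ a b ha hb hab => ?_⟩
  rw [smul_eq_mul, smul_eq_mul]
  refine le_trans ?_ (h.tau_add hp (a • x) (b • y))
  rcases ha.eq_or_lt with h0 | ha'
  · rcases hb.eq_or_lt with h1 | hb'
    · linarith
    · rw [← h0, zero_smul, zero_mul]
      exact add_le_add (h.tau_zero_nonneg hp) (h.tau_smul hp b hb' y)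
  · rcases hb.eq_or_lt with h1 | hb'
    · rw [← h1, zero_smul, zero_mul]
      exact add_le_add (h.tau_smul hp a ha' x) (h.tau_zero_nonneg hp)
    · exact add_le_add (h.tau_smul hp a ha' x) (h.tau_smul hp b hb' y)

theorem continuous_tau : Continuous (tau K p) := by
  rw [← continuousOn_univ]
  exact (h.concave hp).continuousOn isOpen_univ

theorem tau_eq_zero {x : E} (hx : x ∈ K) (hxU : x ∉ U) : tau K p x = 0 := by
  apply le_antisymm
  · by_contra hcon
    push Not at hcon
    apply hxU
    have := h.addU _ (h.mem_tau hp x) _ (h.smulU _ hcon p hp)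
    rwa [sub_add_cancel] at this
  · apply h.le_tau hp
    simpa using hx

/-- the radial projection to the boundary -/
theorem image_eq : (fun q => q - tau K p q • p) '' ((Submodule.span ℝ {p} : Submodule ℝ E) : Set E)ᶜ =
    {x | x ∈ K ∧ x ∉ U ∧ x ≠ 0} := by
  ext x
  constructor
  · rintro ⟨q, hq, rfl⟩
    refine ⟨h.mem_tau hp q, h.tau_notMem hp q, fun h0 => hq ?_⟩
    rw [sub_eq_zero] at h0
    rw [SetLike.mem_coe, Submodule.mem_span_singleton]
    exact ⟨_, h0.symm⟩
  · rintro ⟨hxK, hxU, hx0⟩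
    refine ⟨x, ?_, ?_⟩
    · intro hx
      rw [SetLike.mem_coe, Submodule.mem_span_singleton] at hx
      obtain ⟨c, rfl⟩ := hx
      rcases lt_trichotomy c 0 with hc | hc | hc
      · have h1 := h.lamK _ hxK
        rw [map_smul, smul_eq_mul] at h1
        have := mul_neg_of_neg_of_pos hc (h.lamU p hp)
        linarith
      · exact hx0 (by rw [hc, zero_smul])
      · exact hxU (h.smulU c hc p hp)
    · change x - tau K p x • p = x
      rw [h.tau_eq_zero hp hxK hxU, zero_smul, sub_zero]

/-- The boundary of the cone is connected. -/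
theorem isConnected_boundary (hE : 3 ≤ Module.finrank ℝ E) :
    IsPreconnected {x | x ∈ K ∧ x ∉ U ∧ x ≠ 0} := by
  rw [← h.image_eq hp]
  refine IsPreconnected.image ?_ _ ?_
  · have hp0 : p ≠ 0 := by
      rintro rfl
      have := h.lamU 0 hp
      rw [map_zero] at this
      exact lt_irrefl _ this
    apply (isPathConnected_compl_of_one_lt_codim ?_).isConnected.isPreconnected
    have h1 := Submodule.finrank_quotient_add_finrank (Submodule.span ℝ {p} : Submodule ℝ E)
    rw [finrank_span_singleton hp0] at h1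
    rw [← Module.finrank_eq_rank]
    exact_mod_cast (by omega : 1 < Module.finrank ℝ (E ⧸ (Submodule.span ℝ {p} : Submodule ℝ E)))
  · exact (continuous_id.sub ((h.continuous_tau hp).smul continuous_const)).continuousOn

end ConeData

end Pool.Agent.H3.LC
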