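import Pool.Agent.H3.LC.Walls

/-!
# The number of the regions of one colour of an arrangement of planes with multiplicities
-/

namespace Pool.Agent.H3.LC

open Finset

variable {E : Type*} [AddCommGroup E] [Module ℝ E]

/-- the regions on which `C ∏ f_i ^ m_i` is positive -/
def Pos {ι : Type*} [Fintype ι] (f : ι → E →ₗ[ℝ] ℝ) (C : ℝ) (m : ι → ℕ) : Set (ι → Bool) :=
  {s | s ∈ Realized f ∧ 0 < C * ∏ i, sg (s i) ^ m i}

theorem pos_wall_le {ι : Type*} [Fintype ι] [DecidableEq ι] [FiniteDimensional ℝ E]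
    (hE : Module.finrank ℝ E = 3) (f : ι → E →ₗ[ℝ] ℝ) (hf : ∀ i, f i ≠ 0)
    (hpair : ∀ i j, i ≠ j → ∀ c : ℝ, f j ≠ c • f i) (C : ℝ) (m : ι → ℕ) (hm : ∀ i, 0 < m i)
    (j : ι) (h2 : 2 ≤ Fintype.card ι) :
    ({s | s ∈ Pos f C m ∧ IsWall f s j} : Set (ι → Bool)).ncard ≤
      m j * (2 * (Fintype.card ι - 1)) := by
  classical
  set V := LinearMap.ker (f j) with hV
  have hVr : Module.finrank ℝ V = 2 := by
    have h1 := LinearMap.finrank_range_add_finrank_ker (f j)
    rw [LinearMap.range_eq_top.2 (LinearMap.surjective (hf j)), finrank_top,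
      Module.finrank_self, hE] at h1
    change 1 + Module.finrank ℝ V = 3 at h1
    omega
  set g : {i // i ≠ j} → V →ₗ[ℝ] ℝ := fun i => (f i).domRestrict V with hg
  have hg0 : ∀ i, g i ≠ 0 := by
    rintro ⟨i, hi⟩ h0
    obtain ⟨w, hw1, hw2⟩ := exists_sep (hf j) (hpair j i (Ne.symm hi))
    apply hw2
    have := LinearMap.congr_fun h0 ⟨w, LinearMap.mem_ker.2 hw1⟩
    simpa [hg] using this
  have hne : Nonempty {i // i ≠ j} := by
    obtain ⟨i, hi⟩ : ∃ i, i ≠ j := by
      by_contra hcon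
      push Not at hcon
      have : Fintype.card ι ≤ 1 := Fintype.card_le_one_iff.2 fun a b => by rw [hcon a, hcon b]
      omega
    exact ⟨⟨i, hi⟩⟩
  have hR := realized_plane' (fun φ hφ => plane_ker hVr φ hφ) g hg0 hne
  have hcard : Nat.card {i // i ≠ j} = Fintype.card ι - 1 := by
    rw [Nat.card_eq_fintype_card, Fintype.card_subtype_compl, Fintype.card_subtype_eq]
  rw [hcard] at hR
  set W : Finset (ι → Bool) := (Set.toFinite {s | s ∈ Pos f C m ∧ IsWall f s j}).toFinset with hW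
  have hWm : ∀ s, s ∈ W ↔ s ∈ Pos f C m ∧ IsWall f s j := fun s => by simp [hW]
  have c1 : ({s | s ∈ Pos f C m ∧ IsWall f s j} : Set (ι → Bool)).ncard = W.card :=
    Set.ncard_eq_toFinset_card _
  set R : Finset ({i // i ≠ j} → Bool) := (Set.toFinite (Realized g)).toFinset with hRd
  have hRm : ∀ t, t ∈ R ↔ t ∈ Realized g := fun s => by simp [hRd]
  have c2 : (Realized g).ncard = R.card := Set.ncard_eq_toFinset_card _
  rw [c1]
  rw [c2] at hR
  set ρ : (ι → Bool) → ({i // i ≠ j} → Bool) := fun s i => s i with hρ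
  have hmap : ∀ s ∈ W, ρ s ∈ R := by
    intro s hs
    obtain ⟨_, x, hx0, hx⟩ := (hWm s).1 hs
    rw [hRm]
    exact ⟨⟨x, LinearMap.mem_ker.2 hx0⟩, fun i => hx i i.2⟩
  have hfib : ∀ t ∈ R, (W.filter fun s => ρ s = t).card ≤ m j := by
    intro t ht
    have hinj : Set.InjOn (fun s : ι → Bool => s j) (W.filter fun s => ρ s = t) := by
      intro s hs s' hs' hss
      simp only [coe_filter, Set.mem_ofPred_eq] at hs hs'
      funext i
      by_cases hi : i = j
      · rw [hi]
        exact hss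
      · have := congrFun (hs.2.trans hs'.2.symm) ⟨i, hi⟩
        exact this
    by_cases hm2 : 2 ≤ m j
    · have h3 : (W.filter fun s => ρ s = t).card ≤ (univ : Finset Bool).card := by
        rw [← card_image_of_injOn hinj]
        exact card_le_card (subset_univ _)
      rw [card_univ, Fintype.card_bool] at h3
      omega
    · have hm1 : m j = 1 := by have := hm j; omega
      rw [hm1, card_le_one]
      intro s hs s' hs'
      apply hinj (by exact_mod_cast hs) (by exact_mod_cast hs')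
      by_contra hne'
      rw [mem_filter, hWm] at hs hs'
      have e1 : s' j = !(s j) := by
        simp only at hne'
        revert hne'
        cases s j <;> cases s' j <;> simp
      have e2 : ∏ i, sg (s' i) ^ m i = -∏ i, sg (s i) ^ m i := by
        rw [← mul_prod_erase univ _ (mem_univ j), ← mul_prod_erase univ (fun i => sg (s i) ^ m i)
          (mem_univ j), e1, sg_not, hm1, pow_one, pow_one, neg_mul]
        congr 2
        refine prod_congr rfl fun i hi => ?_
        have := congrFun (hs.2.trans hs'.2.symm) ⟨i, (mem_erase.1 hi).1⟩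
        simp only [hρ] at this
        rw [this]
      have e3 := hs.1.1.2
      have e4 := hs'.1.1.2
      rw [e2] at e4
      linarith
  calc W.card = ∑ t ∈ R, (W.filter fun s => ρ s = t).card := card_eq_sum_card_fiberwise hmap
    _ ≤ ∑ _t ∈ R, m j := sum_le_sum hfib
    _ = R.card * m j := by rw [sum_const, smul_eq_mul]
    _ ≤ (2 * (Fintype.card ι - 1)) * m j := Nat.mul_le_mul_right _ hR
    _ = m j * (2 * (Fintype.card ι - 1)) := by ring

/-- The regions of one colour if the planes have no common line. -/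
theorem pos_le_span {ι : Type*} [Fintype ι] [FiniteDimensional ℝ E]
    (hE : Module.finrank ℝ E = 3) (f : ι → E →ₗ[ℝ] ℝ) (hf : ∀ i, f i ≠ 0)
    (hpair : ∀ i j, i ≠ j → ∀ c : ℝ, f j ≠ c • f i)
    (hker : ∀ v, (∀ i, f i v = 0) → v = 0) (C : ℝ) (m : ι → ℕ) (hm : ∀ i, 0 < m i) :
    3 * (Pos f C m).ncard ≤ 2 * ((∑ i, m i) * ((∑ i, m i) - 1)) := by
  classical
  set S : Finset (ι → Bool) := (Set.toFinite (Pos f C m)).toFinset with hS
  have hSm : ∀ s, s ∈ S ↔ s ∈ Pos f C m := fun s => by simp [hS]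
  have c1 : (Pos f C m).ncard = S.card := Set.ncard_eq_toFinset_card _
  rw [c1]
  rcases S.eq_empty_or_nonempty with h0 | ⟨s0, hs0⟩
  · rw [h0]
    simp
  have hk3 : 3 ≤ Fintype.card ι := by
    have := three_walls hE f hf hpair hker s0 ((hSm s0).1 hs0).1
    exact this.trans (card_le_univ _)
  have hkd : Fintype.card ι ≤ ∑ i, m i := by
    calc Fintype.card ι = ∑ _i : ι, 1 := by simp
      _ ≤ ∑ i, m i := sum_le_sum fun i _ => hm i
  have h1 : 3 * S.card ≤ ∑ s ∈ S, (univ.filter (IsWall f s)).card := by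
    calc 3 * S.card = ∑ _s ∈ S, 3 := by rw [sum_const, smul_eq_mul, mul_comm]
      _ ≤ _ := sum_le_sum fun s hs => three_walls hE f hf hpair hker s ((hSm s).1 hs).1
  have h2 : ∑ s ∈ S, (univ.filter (IsWall f s)).card =
      ∑ j : ι, (S.filter fun s => IsWall f s j).card := by
    simp only [card_filter]
    rw [sum_comm]
  have h3 : ∀ j : ι, (S.filter fun s => IsWall f s j).card ≤
      m j * (2 * (Fintype.card ι - 1)) := by
    intro j
    refine le_trans (le_of_eq ?_) (pos_wall_le hE f hf hpair C m hm j (by omega))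
    rw [Set.ncard_eq_toFinset_card']
    congr 1
    ext s
    simp [hSm]
  calc 3 * S.card ≤ ∑ j : ι, (S.filter fun s => IsWall f s j).card := by rw [← h2]; exact h1
    _ ≤ ∑ j : ι, m j * (2 * (Fintype.card ι - 1)) := sum_le_sum fun j _ => h3 j
    _ = (∑ j, m j) * (2 * (Fintype.card ι - 1)) := by rw [sum_mul]
    _ ≤ (∑ j, m j) * (2 * ((∑ j, m j) - 1)) := by
        apply Nat.mul_le_mul_left
        omega
    _ = 2 * ((∑ i, m i) * ((∑ i, m i) - 1)) := by ring

/-- All regions if the planes have a common line. -/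
theorem realized_le_common {ι : Type*} [Fintype ι] [Nonempty ι] [FiniteDimensional ℝ E]
    (hE : Module.finrank ℝ E = 3) (f : ι → E →ₗ[ℝ] ℝ) (hf : ∀ i, f i ≠ 0)
    (e : E) (he : e ≠ 0) (hfe : ∀ i, f i e = 0) :
    (Realized f).ncard ≤ 2 * Fintype.card ι := by
  classical
  set K : Submodule ℝ E := Submodule.span ℝ {e} with hK
  have hKf : ∀ i, K ≤ LinearMap.ker (f i) := by
    intro i
    rw [hK, Submodule.span_singleton_le_iff_mem]
    exact LinearMap.mem_ker.2 (hfe i)
  set g : ι → (E ⧸ K) →ₗ[ℝ] ℝ := fun i => K.liftQ (f i) (hKf i) with hg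
  have hgf : ∀ i x, g i (K.mkQ x) = f i x := fun i x => Submodule.liftQ_apply _ _ _
  have hr : Module.finrank ℝ (E ⧸ K) = 2 := by
    have h1 := Submodule.finrank_quotient_add_finrank K
    have h2 : Module.finrank ℝ K = 1 := finrank_span_singleton he
    omega
  have hg0 : ∀ i, g i ≠ 0 := by
    intro i h0
    apply hf i
    ext x
    rw [← hgf i x, h0]
    rfl
  have h := realized_plane' (fun φ hφ => plane_ker hr φ hφ) g hg0 inferInstance
  rw [Nat.card_eq_fintype_card] at h
  refine le_trans (Set.ncard_le_ncard ?_ (Set.toFinite _)) h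
  rintro s ⟨x, hx⟩
  exact ⟨K.mkQ x, fun i => by rw [hgf]; exact hx i⟩

/-- The number of the regions of one colour. -/
theorem pos_le {ι : Type*} [Fintype ι] [FiniteDimensional ℝ E]
    (hE : Module.finrank ℝ E = 3) (f : ι → E →ₗ[ℝ] ℝ) (hf : ∀ i, f i ≠ 0)
    (hpair : ∀ i j, i ≠ j → ∀ c : ℝ, f j ≠ c • f i) (C : ℝ) (m : ι → ℕ) (hm : ∀ i, 0 < m i)
    (hd : 4 ≤ ∑ i, m i) :
    3 * (Pos f C m).ncard ≤ 2 * ((∑ i, m i) * ((∑ i, m i) - 1)) := by
  classical
  by_cases hker : ∀ v, (∀ i, f i v = 0) → v = 0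
  · exact pos_le_span hE f hf hpair hker C m hm
  · push Not at hker
    obtain ⟨e, he, he0⟩ := hker
    have hne : Nonempty ι := by
      by_contra hcon
      rw [not_nonempty_iff] at hcon
      simp at hd
    have h1 := realized_le_common hE f hf e he0 he
    have hkd : Fintype.card ι ≤ ∑ i, m i := by
      calc Fintype.card ι = ∑ _i : ι, 1 := by simp
        _ ≤ ∑ i, m i := sum_le_sum fun i _ => hm i
    have h2 : (Pos f C m).ncard ≤ (Realized f).ncard :=
      Set.ncard_le_ncard (fun s hs => hs.1) (Set.toFinite _)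
    set D := ∑ i, m i with hD
    have h3 : 3 * (Pos f C m).ncard ≤ 3 * (2 * D) := by omega
    refine h3.trans ?_
    obtain ⟨D', hD'⟩ : ∃ D', D = D' + 4 := ⟨D - 4, by omega⟩
    rw [hD']
    have : D' + 4 - 1 = D' + 3 := by omega
    rw [this]
    nlinarith

/-- Half of the regions: those on the positive side of `f i₀`. -/
theorem half_pos_le {ι : Type*} [Fintype ι] [FiniteDimensional ℝ E]
    (hE : Module.finrank ℝ E = 3) (f : ι → E →ₗ[ℝ] ℝ) (hf : ∀ i, f i ≠ 0)
    (hpair : ∀ i j, i ≠ j → ∀ c : ℝ, f j ≠ c • f i) (C : ℝ) (m : ι → ℕ) (hm : ∀ i, 0 < m i)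
    (hd : 4 ≤ ∑ i, m i) (hev : Even (∑ i, m i)) (i₀ : ι) :
    3 * ({s | s ∈ Pos f C m ∧ s i₀ = true} : Set (ι → Bool)).ncard ≤
      (∑ i, m i) * ((∑ i, m i) - 1) := by
  classical
  have h := pos_le hE f hf hpair C m hm hd
  have hsplit : (Pos f C m).ncard = ({s | s ∈ Pos f C m ∧ s i₀ = true} : Set (ι → Bool)).ncard +
      ({s | s ∈ Pos f C m ∧ s i₀ = false} : Set (ι → Bool)).ncard := by
    rw [← Set.ncard_union_eq]
    · congr 1
      ext s
      constructor
      · intro hs
        rcases hb : s i₀ with _ | _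
        · exact Or.inr ⟨hs, hb⟩
        · exact Or.inl ⟨hs, hb⟩
      · rintro (hs | hs) <;> exact hs.1
    · rw [Set.disjoint_left]
      rintro s ⟨_, h1⟩ ⟨_, h2⟩
      rw [h1] at h2
      exact absurd h2 (by simp)
  have hneg : ∀ s ∈ Pos f C m, (fun i => !(s i)) ∈ Pos f C m := by
    rintro s ⟨⟨x, hx⟩, hs⟩
    refine ⟨⟨-x, fun i => ?_⟩, ?_⟩
    · rw [sg_not, map_neg, neg_mul_neg]
      exact hx i
    · have : ∏ i, sg (!(s i)) ^ m i = ∏ i, sg (s i) ^ m i := by
        have h1 : ∀ i, sg (!(s i)) ^ m i = (-1) ^ m i * sg (s i) ^ m i := by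
          intro i
          rw [sg_not, neg_eq_neg_one_mul, mul_pow]
        simp only [h1]
        rw [prod_mul_distrib, prod_pow_eq_pow_sum, hev.neg_one_pow, one_mul]
      rw [this]
      exact hs
  have heq : ({s | s ∈ Pos f C m ∧ s i₀ = false} : Set (ι → Bool)).ncard =
      ({s | s ∈ Pos f C m ∧ s i₀ = true} : Set (ι → Bool)).ncard := by
    refine Set.ncard_congr (fun s _ => fun i => !(s i)) ?_ ?_ ?_
    · rintro s ⟨hs, h1⟩
      exact ⟨hneg s hs, by simp [h1]⟩
    · intro s t _ _ hst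
      funext i
      have := congrFun hst i
      simpa using this
    · rintro s ⟨hs, h1⟩
      exact ⟨fun i => !(s i), ⟨hneg s hs, by simp [h1]⟩, by simp⟩
  rw [hsplit, heq] at h
  omega

end Pool.Agent.H3.LC
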