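import Pool.Agent.H3.LC.Plane

/-!
# Products of linear forms minus convex forms
-/

open MvPolynomial

namespace Pool.Agent.H3.LC

variable {ι : Type*} [Fintype ι]

section

variable {F : MvPolynomial (Fin 3) ℝ} {f : ι → (Fin 3 → ℝ) →ₗ[ℝ] ℝ} {C : ℝ} {m : ι → ℕ}
  {G : (Fin 3 → ℝ) → ℝ}

theorem exists_region (hm : ∀ i, 0 < m i) (hG : ConvexForm G (∑ i, m i)) {w : Fin 3 → ℝ}
    (hw : G w < prodForm f C m w) : ∃ s ∈ Pos f C m, w ∈ UU f C m G s := by
  have h0 : 0 < prodForm f C m w := lt_of_le_of_lt (hG.nonneg w) hw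
  have hne : ∀ i, f i w ≠ 0 := by
    intro i hi
    have : prodForm f C m w = 0 := by
      unfold prodForm
      rw [Finset.prod_eq_zero (Finset.mem_univ i) (by rw [hi, zero_pow (hm i).ne']), mul_zero]
    rw [this] at h0
    exact lt_irrefl _ h0
  have hpos : ∀ i, 0 < sg (decide (0 < f i w)) * f i w := fun i => sg_decide_pos (hne i)
  refine ⟨fun i => decide (0 < f i w), ⟨⟨w, hpos⟩, ?_⟩, hpos, hw⟩
  rw [prodForm_eq f C m (fun i => decide (0 < f i w)) w] at h0
  exact (mul_pos_iff_of_pos_right (Finset.prod_pos fun i _ => pow_pos (hpos i) _)).1 h0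

theorem neg_region (hev : Even (∑ i, m i)) (hG : ConvexForm G (∑ i, m i)) {s : ι → Bool}
    (hs : s ∈ Pos f C m) (hU : (UU f C m G s).Nonempty) :
    (fun i => !(s i)) ∈ Pos f C m ∧ (UU f C m G fun i => !(s i)).Nonempty := by
  obtain ⟨w, hw1, hw2⟩ := hU
  have e1 : ∀ i, 0 < sg (!(s i)) * f i (-w) := fun i => by
    rw [sg_not, map_neg, neg_mul_neg]
    exact hw1 i
  refine ⟨⟨⟨-w, e1⟩, ?_⟩, -w, e1, ?_⟩
  · have : ∏ i, sg (!(s i)) ^ m i = ∏ i, sg (s i) ^ m i := by
      have h1 : ∀ i, sg (!(s i)) ^ m i = (-1) ^ m i * sg (s i) ^ m i := by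
        intro i
        rw [sg_not, neg_eq_neg_one_mul, mul_pow]
      simp only [h1]
      rw [Finset.prod_mul_distrib, Finset.prod_pow_eq_pow_sum, hev.neg_one_pow, one_mul]
    rw [this]
    exact hs.2
  · have h1 : G (-w) = G w := by
      have := hG.hom (-1) w
      rwa [neg_one_smul, hev.neg_one_pow, one_mul] at this
    have h2 : prodForm f C m (-w) = prodForm f C m w := by
      have := prodForm_smul f C m (-1) w
      rwa [neg_one_smul, hev.neg_one_pow, one_mul] at this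
    rw [h1, h2]
    exact hw2

/-- the regions which are used -/
def Used (f : ι → (Fin 3 → ℝ) →ₗ[ℝ] ℝ) (C : ℝ) (m : ι → ℕ) (G : (Fin 3 → ℝ) → ℝ) (i₀ : ι) :
    Set (ι → Bool) :=
  {s | (s ∈ Pos f C m ∧ s i₀ = true) ∧ (UU f C m G s).Nonempty}

theorem cover (hm : ∀ i, 0 < m i) (hev : Even (∑ i, m i)) (hG : ConvexForm G (∑ i, m i))
    (hF : ∀ v, eval v F = prodForm f C m v - G v)
    (hns : ∀ v : Fin 3 → ℝ, v ≠ 0 → eval v F = 0 → ∃ i, eval v (pderiv i F) ≠ 0) (i₀ : ι)
    (x : realPart F) : ∃ s ∈ Used f C m G i₀, ∃ v : NZ, mkP v = x.1 ∧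
      (∀ i, 0 ≤ sg (s i) * f i v.1) ∧ eval v.1 F = 0 := by
  obtain ⟨p, v, rfl, hv⟩ := x
  have hcl := mem_closure_pos F v.1 hv (hns v.1 v.2 hv)
  have hsub : {w : Fin 3 → ℝ | 0 < eval w F} ⊆
      ⋃ s : ι → Bool, {w | s ∈ Pos f C m ∧ w ∈ UU f C m G s} := by
    intro w hw
    have h1 : 0 < eval w F := hw
    rw [hF, sub_pos] at h1
    obtain ⟨s, hs, hsw⟩ := exists_region hm hG h1
    exact Set.mem_iUnion.2 ⟨s, hs, hsw⟩
  have h2 := closure_mono hsub hcl
  rw [closure_iUnion_of_finite] at h2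
  obtain ⟨s, hs⟩ := Set.mem_iUnion.1 h2
  have hne : ({w : Fin 3 → ℝ | s ∈ Pos f C m ∧ w ∈ UU f C m G s}).Nonempty :=
    closure_nonempty_iff.1 ⟨v.1, hs⟩
  obtain ⟨w, hsP, hw⟩ := hne
  have hclosed : IsClosed {w : Fin 3 → ℝ | ∀ i, 0 ≤ sg (s i) * f i w} := by
    have : {w : Fin 3 → ℝ | ∀ i, 0 ≤ sg (s i) * f i w} =
        ⋂ i, {w : Fin 3 → ℝ | 0 ≤ sg (s i) * f i w} := by
      ext w
      simp
    rw [this]
    exact isClosed_iInter fun i => isClosed_le continuous_const
      (continuous_const.mul ((f i).continuous_of_finiteDimensional))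
  have hsv : ∀ i, 0 ≤ sg (s i) * f i v.1 := by
    have : closure {w : Fin 3 → ℝ | s ∈ Pos f C m ∧ w ∈ UU f C m G s} ⊆
        {w : Fin 3 → ℝ | ∀ i, 0 ≤ sg (s i) * f i w} :=
      closure_minimal (fun w hw i => (hw.2.1 i).le) hclosed
    exact this hs
  rcases hb : s i₀ with _ | _
  · obtain ⟨h3, h4⟩ := neg_region hev hG hsP ⟨w, hw⟩
    refine ⟨fun i => !(s i), ⟨⟨h3, by simp [hb]⟩, h4⟩,
      ⟨-v.1, neg_ne_zero.2 v.2⟩, ?_, ?_, ?_⟩
    · exact mkP_eq.2 ⟨-1, by simp⟩
    · intro i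
      change 0 ≤ sg (!(s i)) * f i (-v.1)
      rw [sg_not, map_neg, neg_mul_neg]
      exact hsv i
    · have h1 : G (-v.1) = G v.1 := by
        have := hG.hom (-1) v.1
        rwa [neg_one_smul, hev.neg_one_pow, one_mul] at this
      have h2 : prodForm f C m (-v.1) = prodForm f C m v.1 := by
        have := prodForm_smul f C m (-1) v.1
        rwa [neg_one_smul, hev.neg_one_pow, one_mul] at this
      change eval (-v.1) F = 0
      rw [hF, h1, h2, ← hF]
      exact hv
  · exact ⟨s, ⟨⟨hsP, hb⟩, w, hw⟩, v, rfl, hsv, hv⟩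

theorem same_component (hm : ∀ i, 0 < m i) (hd : 0 < ∑ i, m i)
    (hG : ConvexForm G (∑ i, m i)) (hGc : Continuous G)
    (hF : ∀ v, eval v F = prodForm f C m v - G v) {s : ι → Bool} {i₀ : ι}
    (hs : s ∈ Used f C m G i₀) {x y : realPart F}
    (hx : ∃ v : NZ, mkP v = x.1 ∧ (∀ i, 0 ≤ sg (s i) * f i v.1) ∧ eval v.1 F = 0)
    (hy : ∃ v : NZ, mkP v = y.1 ∧ (∀ i, 0 ≤ sg (s i) * f i v.1) ∧ eval v.1 F = 0) :
    (x : ConnectedComponents (realPart F)) = y := by
  obtain ⟨⟨⟨_, hpos⟩, _⟩, p, hp⟩ := hs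
  have hZ := isPreconnected_zeros (by simp) f C m hm hd s hpos hG hGc p hp
  set Z : Set (Fin 3 → ℝ) :=
    {x | (∀ i, 0 ≤ sg (s i) * f i x) ∧ prodForm f C m x = G x ∧ x ≠ 0} with hZd
  set Z' : Set NZ := {v | v.1 ∈ Z} with hZ'
  have hind : Topology.IsInducing (fun v : NZ => v.1) := Topology.IsInducing.subtypeVal
  have him : (fun v : NZ => v.1) '' Z' = Z := by
    ext w
    constructor
    · rintro ⟨v, hv, rfl⟩
      exact hv
    · intro hw
      exact ⟨⟨w, hw.2.2⟩, hw, rfl⟩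
  have hZ'p : IsPreconnected Z' := by
    rw [← hind.isPreconnected_image, him]
    exact hZ
  have hP : IsPreconnected (mkP '' Z') := hZ'p.image _ continuous_mkP.continuousOn
  have hsub : mkP '' Z' ⊆ realPart F := by
    rintro _ ⟨v, hv, rfl⟩
    refine ⟨v, rfl, ?_⟩
    have h2 : prodForm f C m v.1 = G v.1 := hv.2.1
    rw [hF, h2, sub_self]
  set W : Set (realPart F) := Subtype.val ⁻¹' (mkP '' Z') with hW
  have hWp : IsPreconnected W := by
    have hi : Topology.IsInducing (Subtype.val : realPart F → RP2) :=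
      Topology.IsInducing.subtypeVal
    rw [← hi.isPreconnected_image, Subtype.image_preimage_coe, Set.inter_eq_right.2 hsub]
    exact hP
  have hmem : ∀ z : realPart F, (∃ v : NZ, mkP v = z.1 ∧ (∀ i, 0 ≤ sg (s i) * f i v.1) ∧
      eval v.1 F = 0) → z ∈ W := by
    rintro z ⟨v, hv1, hv2, hv3⟩
    refine ⟨v, ⟨hv2, ?_, v.2⟩, hv1⟩
    rw [hF, sub_eq_zero] at hv3
    exact hv3
  rw [ConnectedComponents.coe_eq_coe']
  exact hWp.subset_connectedComponent (hmem y hy) (hmem x hx)

theorem comp_bound (hf : ∀ i, f i ≠ 0) (hpair : ∀ i j, i ≠ j → ∀ c : ℝ, f j ≠ c • f i)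
    (hm : ∀ i, 0 < m i) (hd : 4 ≤ ∑ i, m i) (hev : Even (∑ i, m i))
    (hG : ConvexForm G (∑ i, m i)) (hGc : Continuous G)
    (hF : ∀ v, eval v F = prodForm f C m v - G v)
    (hns : ∀ v : Fin 3 → ℝ, v ≠ 0 → eval v F = 0 → ∃ i, eval v (pderiv i F) ≠ 0) :
    Finite (ConnectedComponents (realPart F)) ∧
      3 * Nat.card (ConnectedComponents (realPart F)) ≤ (∑ i, m i) * ((∑ i, m i) - 1) := by
  classical
  have hne : Nonempty ι := by
    by_contra hcon
    rw [not_nonempty_iff] at hcon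
    simp at hd
  obtain ⟨i₀⟩ := hne
  set T : Set (ι → Bool) := {s | s ∈ Pos f C m ∧ s i₀ = true} with hT
  have hUT : Used f C m G i₀ ⊆ T := fun s hs => hs.1
  have hch : ∀ c : ConnectedComponents (realPart F), ∃ s ∈ Used f C m G i₀, ∃ x : realPart F,
      (x : ConnectedComponents (realPart F)) = c ∧
      ∃ v : NZ, mkP v = x.1 ∧ (∀ i, 0 ≤ sg (s i) * f i v.1) ∧ eval v.1 F = 0 := by
    intro c
    obtain ⟨x, rfl⟩ := ConnectedComponents.surjective_coe c
    obtain ⟨s, hs, h⟩ := cover hm hev hG hF hns i₀ x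
    exact ⟨s, hs, x, rfl, h⟩
  choose σ hσ x hx hv using hch
  have hinj : Function.Injective (fun c => (⟨σ c, hUT (hσ c)⟩ : T)) := by
    intro c c' hcc
    have h1 : σ c = σ c' := congrArg Subtype.val hcc
    rw [← hx c, ← hx c']
    apply same_component hm (by omega) hG hGc hF (hσ c) (hv c)
    have := hv c'
    rwa [← h1] at this
  have hTf : Finite T := inferInstance
  refine ⟨Finite.of_injective _ hinj, ?_⟩
  have h1 := Nat.card_le_card_of_injective _ hinj
  have h2 := half_pos_le (E := Fin 3 → ℝ) (by simp) f hf hpair C m hm hd hev i₀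
  have h3 : Nat.card T = T.ncard := rfl
  rw [h3] at h1
  calc 3 * Nat.card (ConnectedComponents (realPart F)) ≤ 3 * T.ncard := Nat.mul_le_mul_left _ h1
    _ ≤ _ := h2

/-- Every component of the set where `F` is positive is convex. -/
theorem convex_component (hm : ∀ i, 0 < m i) (hd : 0 < ∑ i, m i)
    (hG : ConvexForm G (∑ i, m i)) (hGc : Continuous G)
    (hF : ∀ v, eval v F = prodForm f C m v - G v) (v : Fin 3 → ℝ) :
    Convex ℝ (connectedComponentIn {w : Fin 3 → ℝ | 0 < eval w F} v) := by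
  by_cases hv : v ∈ {w : Fin 3 → ℝ | 0 < eval w F}
  swap
  · rw [connectedComponentIn_eq_empty hv]
    exact convex_empty
  have hne : Nonempty ι := by
    by_contra hcon
    rw [not_nonempty_iff] at hcon
    simp at hd
  obtain ⟨i₀⟩ := hne
  have h1 : 0 < eval v F := hv
  rw [hF, sub_pos] at h1
  obtain ⟨s, hs, hsv⟩ := exists_region hm hG h1
  have hcd := coneData f C m hm hd s hs.2 hG hGc i₀
  have hconv : Convex ℝ (UU f C m G s) := by
    intro x hx y hy a b ha hb hab
    rcases ha.eq_or_lt with h0 | ha'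
    · rw [← h0, zero_smul, zero_add]
      have : b = 1 := by linarith
      rw [this, one_smul]
      exact hy
    · rcases hb.eq_or_lt with h0 | hb'
      · rw [← h0, zero_smul, add_zero]
        have : a = 1 := by linarith
        rw [this, one_smul]
        exact hx
      · exact hcd.addU _ (hcd.sub (hcd.smulU a ha' x hx)) _ (hcd.smulU b hb' y hy)
  have hsubU : UU f C m G s ⊆ {w : Fin 3 → ℝ | 0 < eval w F} := by
    intro w hw
    change 0 < eval w F
    rw [hF, sub_pos]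
    exact hw.2
  have heq : connectedComponentIn {w : Fin 3 → ℝ | 0 < eval w F} v = UU f C m G s := by
    apply Set.Subset.antisymm
    · have hpre : IsPreconnected (connectedComponentIn {w : Fin 3 → ℝ | 0 < eval w F} v) :=
        isPreconnected_connectedComponentIn
      refine hpre.subset_left_of_subset_union (u := UU f C m G s)
        (v := ⋃ t : {t : ι → Bool // t ≠ s ∧ t ∈ Pos f C m}, UU f C m G t.1) hcd.isOpen ?_ ?_ ?_ ?_
      · exact isOpen_iUnion fun t => (coneData f C m hm hd t.1 t.2.2.2 hG hGc i₀).isOpen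
      · rw [Set.disjoint_left]
        intro w hw hw'
        obtain ⟨t, ht⟩ := Set.mem_iUnion.1 hw'
        apply t.2.1
        funext i
        have e1 := sg_decide _ (hw.1 i)
        have e2 := sg_decide _ (ht.1 i)
        rw [e1, e2]
      · intro w hw
        have hw2 : w ∈ {w : Fin 3 → ℝ | 0 < eval w F} := connectedComponentIn_subset _ _ hw
        change 0 < eval w F at hw2
        rw [hF, sub_pos] at hw2
        obtain ⟨t, ht, htw⟩ := exists_region hm hG hw2
        by_cases hts : t = s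
        · left
          rw [← hts]
          exact htw
        · right
          exact Set.mem_iUnion.2 ⟨⟨t, hts, ht⟩, htw⟩
      · exact ⟨v, mem_connectedComponentIn hv, hsv⟩
    · exact hconv.isPreconnected.subset_connectedComponentIn hsv hsubU
  rw [heq]
  exact hconv

end

end Pool.Agent.H3.LC
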