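import Mathlib

/-!
# Mahler's inequality and convex forms
-/

namespace Pool.Agent.H3.LC

open Finset

/-- the weighted geometric mean -/
noncomputable def gm {ι : Type*} [Fintype ι] (m : ι → ℕ) (κ : ℝ) (a : ι → ℝ) : ℝ :=
  (κ ^ (1 / ((∑ i, m i : ℕ) : ℝ))) * ∏ i, a i ^ ((m i : ℝ) / ((∑ i, m i : ℕ) : ℝ))

theorem gm_nonneg {ι : Type*} [Fintype ι] (m : ι → ℕ) {κ : ℝ} (hκ : 0 ≤ κ) {a : ι → ℝ}
    (ha : ∀ i, 0 ≤ a i) : 0 ≤ gm m κ a :=
  mul_nonneg (Real.rpow_nonneg hκ _) (prod_nonneg fun i _ => Real.rpow_nonneg (ha i) _)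

theorem gm_pow {ι : Type*} [Fintype ι] (m : ι → ℕ) {κ : ℝ} (hκ : 0 ≤ κ) {a : ι → ℝ}
    (ha : ∀ i, 0 ≤ a i) (hd : 0 < ∑ i, m i) :
    gm m κ a ^ (∑ i, m i) = κ * ∏ i, a i ^ m i := by
  have hd' : ((∑ i, m i : ℕ) : ℝ) ≠ 0 := by exact_mod_cast hd.ne'
  unfold gm
  rw [mul_pow, ← Real.rpow_natCast, ← Real.rpow_mul hκ, one_div, inv_mul_cancel₀ hd',
    Real.rpow_one, ← prod_pow]
  congr 1
  refine prod_congr rfl fun i _ => ?_
  rw [← Real.rpow_natCast, ← Real.rpow_mul (ha i), div_mul_cancel₀ _ hd', Real.rpow_natCast]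

theorem gm_add {ι : Type*} [Fintype ι] (m : ι → ℕ) {κ : ℝ} (hκ : 0 ≤ κ) {a b : ι → ℝ}
    (ha : ∀ i, 0 ≤ a i) (hb : ∀ i, 0 ≤ b i) (hm : ∀ i, 0 < m i) (hd : 0 < ∑ i, m i) :
    gm m κ a + gm m κ b ≤ gm m κ (fun i => a i + b i) := by
  have hd' : (0 : ℝ) < ((∑ i, m i : ℕ) : ℝ) := by exact_mod_cast hd
  set D : ℝ := ((∑ i, m i : ℕ) : ℝ) with hD
  have hw : ∀ i, 0 < (m i : ℝ) / D := fun i => div_pos (by exact_mod_cast hm i) hd'
  have hws : ∑ i, (m i : ℝ) / D = 1 := by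
    rw [← sum_div, hD]
    push_cast
    rw [div_self]
    have := hd'.ne'
    rw [hD] at this
    exact_mod_cast this
  unfold gm
  rw [← mul_add]
  apply mul_le_mul_of_nonneg_left _ (Real.rpow_nonneg hκ _)
  by_cases hz : ∃ i, a i + b i = 0
  · obtain ⟨i, hi⟩ := hz
    have ha0 : a i = 0 := by linarith [ha i, hb i]
    have hb0 : b i = 0 := by linarith [ha i, hb i]
    rw [prod_eq_zero (mem_univ i) (by rw [ha0]; exact Real.zero_rpow (hw i).ne'),
      prod_eq_zero (mem_univ i) (by rw [hb0]; exact Real.zero_rpow (hw i).ne'), add_zero]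
    exact prod_nonneg fun j _ => Real.rpow_nonneg (add_nonneg (ha j) (hb j)) _
  · push Not at hz
    have hc : ∀ i, 0 < a i + b i := fun i =>
      lt_of_le_of_ne (add_nonneg (ha i) (hb i)) (Ne.symm (hz i))
    have key : ∀ x : ι → ℝ, (∀ i, 0 ≤ x i) → ∏ i, x i ^ ((m i : ℝ) / D) ≤
        (∑ i, (m i : ℝ) / D * (x i / (a i + b i))) *
          ∏ i, (a i + b i) ^ ((m i : ℝ) / D) := by
      intro x hx
      have h1 : ∏ i, x i ^ ((m i : ℝ) / D) = (∏ i, (x i / (a i + b i)) ^ ((m i : ℝ) / D)) *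
          ∏ i, (a i + b i) ^ ((m i : ℝ) / D) := by
        rw [← prod_mul_distrib]
        refine prod_congr rfl fun i _ => ?_
        rw [← Real.mul_rpow (div_nonneg (hx i) (hc i).le) (hc i).le,
          div_mul_cancel₀ _ (hc i).ne']
      rw [h1]
      apply mul_le_mul_of_nonneg_right _
        (prod_nonneg fun j _ => Real.rpow_nonneg (hc j).le _)
      exact Real.geom_mean_le_arith_mean_weighted univ _ _ (fun i _ => (hw i).le) hws
        fun i _ => div_nonneg (hx i) (hc i).le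
    calc ∏ i, a i ^ ((m i : ℝ) / D) + ∏ i, b i ^ ((m i : ℝ) / D)
        ≤ (∑ i, (m i : ℝ) / D * (a i / (a i + b i))) * ∏ i, (a i + b i) ^ ((m i : ℝ) / D) +
          (∑ i, (m i : ℝ) / D * (b i / (a i + b i))) * ∏ i, (a i + b i) ^ ((m i : ℝ) / D) :=
          add_le_add (key a ha) (key b hb)
      _ = (∑ i, (m i : ℝ) / D) * ∏ i, (a i + b i) ^ ((m i : ℝ) / D) := by
          rw [← add_mul, ← sum_add_distrib]
          congr 1
          refine sum_congr rfl fun i _ => ?_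
          rw [← mul_add, ← add_div, div_self (hc i).ne', mul_one]
      _ = ∏ i, (a i + b i) ^ ((m i : ℝ) / D) := by rw [hws, one_mul]

/-- A convex function which is homogeneous of even degree. -/
structure ConvexForm {E : Type*} [AddCommGroup E] [Module ℝ E] (G : E → ℝ) (d : ℕ) : Prop where
  convex : ConvexOn ℝ Set.univ G
  hom : ∀ (c : ℝ) (x : E), G (c • x) = c ^ d * G x
  even : Even d
  pos : 0 < d

namespace ConvexForm

variable {E : Type*} [AddCommGroup E] [Module ℝ E] {G : E → ℝ} {d : ℕ} (h : ConvexForm G d)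

include h

theorem zero : G 0 = 0 := by
  have := h.hom 0 0
  rwa [smul_zero, zero_pow h.pos.ne', zero_mul] at this

theorem nonneg (x : E) : 0 ≤ G x := by
  have h1 := h.convex.2 (Set.mem_univ x) (Set.mem_univ (-x)) (by norm_num : (0 : ℝ) ≤ 1 / 2)
    (by norm_num : (0 : ℝ) ≤ 1 / 2) (by norm_num)
  have h2 : (1 / 2 : ℝ) • x + (1 / 2 : ℝ) • -x = 0 := by
    rw [smul_neg, add_neg_cancel]
  have h3 : G (-x) = G x := by
    have := h.hom (-1) x
    rwa [neg_one_smul, h.even.neg_one_pow, one_mul] at this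
  rw [h2, h.zero, h3, smul_eq_mul] at h1
  linarith

theorem add_lt' {x y : E} {α β : ℝ} (hα : 0 < α) (hβ : 0 < β) (hx : G x ≤ α ^ d)
    (hy : G y ≤ β ^ d) : G (x + y) ≤ (α + β) ^ d := by
  have hs : 0 < α + β := add_pos hα hβ
  have h1 := h.convex.2 (Set.mem_univ (α⁻¹ • x)) (Set.mem_univ (β⁻¹ • y))
    (div_nonneg hα.le hs.le) (div_nonneg hβ.le hs.le) (by
      rw [← add_div, div_self hs.ne'])
  have h2 : (α / (α + β)) • α⁻¹ • x + (β / (α + β)) • β⁻¹ • y = (α + β)⁻¹ • (x + y) := by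
    rw [smul_smul, smul_smul, smul_add]
    congr 2
    · field_simp
    · field_simp
  rw [h2, h.hom, h.hom, h.hom, smul_eq_mul, smul_eq_mul] at h1
  have e1 : α⁻¹ ^ d * G x ≤ 1 := by
    rw [inv_pow, inv_mul_le_iff₀ (pow_pos hα d), mul_one]
    exact hx
  have e2 : β⁻¹ ^ d * G y ≤ 1 := by
    rw [inv_pow, inv_mul_le_iff₀ (pow_pos hβ d), mul_one]
    exact hy
  have e3 : (α + β)⁻¹ ^ d * G (x + y) ≤ 1 := by
    refine h1.trans ?_
    calc α / (α + β) * (α⁻¹ ^ d * G x) + β / (α + β) * (β⁻¹ ^ d * G y)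
        ≤ α / (α + β) * 1 + β / (α + β) * 1 :=
          add_le_add (mul_le_mul_of_nonneg_left e1 (div_nonneg hα.le hs.le))
            (mul_le_mul_of_nonneg_left e2 (div_nonneg hβ.le hs.le))
      _ = 1 := by rw [mul_one, mul_one, ← add_div, div_self hs.ne']
  rwa [inv_pow, inv_mul_le_iff₀ (pow_pos hs d), mul_one] at e3

theorem add_le {x y : E} {α β : ℝ} (hα : 0 ≤ α) (hβ : 0 ≤ β) (hx : G x ≤ α ^ d)
    (hy : G y ≤ β ^ d) : G (x + y) ≤ (α + β) ^ d := by
  have hlim : Filter.Tendsto (fun ε : ℝ => ((α + ε) + (β + ε)) ^ d) (nhdsWithin 0 (Set.Ioi 0))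
      (nhds ((α + β) ^ d)) := by
    have hc : Continuous fun ε : ℝ => ((α + ε) + (β + ε)) ^ d := by fun_prop
    have := (hc.tendsto 0).mono_left (nhdsWithin_le_nhds (s := Set.Ioi (0 : ℝ)))
    simpa using this
  refine ge_of_tendsto hlim ?_
  filter_upwards [self_mem_nhdsWithin] with ε hε
  have hε' : 0 < ε := hε
  exact h.add_lt' (by linarith) (by linarith)
    (hx.trans (pow_le_pow_left₀ hα (by linarith) d))
    (hy.trans (pow_le_pow_left₀ hβ (by linarith) d))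

theorem exists_root {x : E} {φ : ℝ} (hφ : 0 ≤ φ) (hx : G x < φ ^ d) :
    ∃ β, 0 ≤ β ∧ β < φ ∧ G x ≤ β ^ d := by
  have hd : (d : ℝ) ≠ 0 := by exact_mod_cast h.pos.ne'
  have hpow : (G x ^ (1 / (d : ℝ))) ^ d = G x := by
    rw [← Real.rpow_natCast, ← Real.rpow_mul (h.nonneg x), one_div, inv_mul_cancel₀ hd,
      Real.rpow_one]
  refine ⟨G x ^ (1 / (d : ℝ)), Real.rpow_nonneg (h.nonneg x) _, ?_, hpow.ge⟩
  by_contra hcon
  push Not at hcon
  have := pow_le_pow_left₀ hφ hcon d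
  rw [hpow] at this
  linarith

end ConvexForm

end Pool.Agent.H3.LC
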