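import Pool.Agent.H3.LC.Region

/-!
# The real projective plane and the real part of a curve
-/

open MvPolynomial

namespace Pool.Agent.H3.LC

/-- The nonzero vectors of `ℝ³`. -/
def NZ : Type := {v : Fin 3 → ℝ // v ≠ 0}

instance : TopologicalSpace NZ :=
  inferInstanceAs (TopologicalSpace {v : Fin 3 → ℝ // v ≠ 0})

/-- Two nonzero vectors are equivalent if they are proportional. -/
instance prSetoid : Setoid NZ where
  r v w := ∃ c : ℝ, w.1 = c • v.1
  iseqv := by
    refine ⟨fun v => ⟨1, by simp⟩, ?_, ?_⟩
    · rintro v w ⟨c, hc⟩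
      have hc0 : c ≠ 0 := by
        rintro rfl
        exact w.2 (by simp [hc])
      exact ⟨c⁻¹, by rw [hc, smul_smul, inv_mul_cancel₀ hc0, one_smul]⟩
    · rintro u v w ⟨a, ha⟩ ⟨b, hb⟩
      exact ⟨b * a, by rw [hb, ha, smul_smul]⟩

/-- The real projective plane. -/
def RP2 : Type := Quotient prSetoid

instance : TopologicalSpace RP2 := inferInstanceAs (TopologicalSpace (Quotient prSetoid))

/-- The point of the projective plane given by a nonzero vector. -/
def mkP (v : NZ) : RP2 := Quotient.mk prSetoid v

/-- The real part of the curve `F = 0`. -/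
def realPart (F : MvPolynomial (Fin 3) ℝ) : Set RP2 :=
  {p | ∃ v : NZ, mkP v = p ∧ eval v.1 F = 0}

theorem continuous_mkP : Continuous mkP := continuous_quotient_mk'

theorem mkP_eq {v w : NZ} : mkP v = mkP w ↔ ∃ c : ℝ, w.1 = c • v.1 := Quotient.eq (r := prSetoid)

theorem hasDerivAt_eval (F : MvPolynomial (Fin 3) ℝ) (c : ℝ → Fin 3 → ℝ) (c' : Fin 3 → ℝ) (x : ℝ)
    (hc : ∀ i, HasDerivAt (fun y => c y i) (c' i) x) :
    HasDerivAt (fun y => eval (c y) F) (∑ i, eval (c x) (pderiv i F) * c' i) x := by
  induction F using MvPolynomial.induction_on with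
  | C a => simpa using hasDerivAt_const x a
  | add p q hp hq =>
    simp only [map_add, add_mul, Finset.sum_add_distrib]
    exact hp.add hq
  | mul_X p j hp =>
    have h := hp.mul (hc j)
    have : ∀ i, eval (c x) (pderiv i (p * X j)) * c' i =
        (eval (c x) (pderiv i p) * c' i) * c x j + (if i = j then eval (c x) p * c' i else 0) := by
      intro i
      rw [Derivation.leibniz, pderiv_X]
      by_cases hij : i = j
      · subst hij
        simp
        ring
      · simp [hij, Ne.symm hij]
        ring
    have h2 : ∑ i, eval (c x) (pderiv i (p * X j)) * c' i =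
        (∑ i, eval (c x) (pderiv i p) * c' i) * c x j + eval (c x) p * c' j := by
      simp only [this, Finset.sum_add_distrib, ← Finset.sum_mul]
      simp
    rw [h2]
    refine HasDerivAt.congr_of_eventuallyEq h (Filter.Eventually.of_forall fun y => ?_)
    simp

/-- The derivative along a coordinate line. -/
theorem deriv_line (F : MvPolynomial (Fin 3) ℝ) (v u : Fin 3 → ℝ) :
    HasDerivAt (fun y : ℝ => eval (v + y • u) F) (∑ i, eval v (pderiv i F) * u i) 0 := by
  have h := hasDerivAt_eval F (fun y => v + y • u) u 0 (by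
    intro i
    simp only [Pi.add_apply, Pi.smul_apply, smul_eq_mul]
    simpa using ((hasDerivAt_id' (0 : ℝ)).mul_const (u i)).const_add (v i))
  simpa using h

/-- Near a nonsingular zero there are points where `F` is positive. -/
theorem mem_closure_pos (F : MvPolynomial (Fin 3) ℝ) (v : Fin 3 → ℝ) (h0 : eval v F = 0)
    (hg : ∃ i, eval v (pderiv i F) ≠ 0) : v ∈ closure {w | 0 < eval w F} := by
  by_contra hcon
  have hopen : IsOpen (closure {w : Fin 3 → ℝ | 0 < eval w F})ᶜ := isClosed_closure.isOpen_compl
  obtain ⟨i, hi⟩ := hg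
  set u : Fin 3 → ℝ := Pi.single i 1 with hu
  have hd := deriv_line F v u
  have hmax : IsLocalMax (fun y : ℝ => eval (v + y • u) F) 0 := by
    have hc : Continuous fun y : ℝ => v + y • u := by fun_prop
    have hv0 : (0 : ℝ) ∈ (fun y : ℝ => v + y • u) ⁻¹' (closure {w : Fin 3 → ℝ | 0 < eval w F})ᶜ := by
      simpa using hcon
    have hev := (hopen.preimage hc).mem_nhds hv0
    refine Filter.mem_of_superset hev fun y hy => ?_
    have h1 : ¬ 0 < eval (v + y • u) F := fun h => hy (subset_closure h)
    simp only [Set.mem_ofPred_eq, zero_smul, add_zero, h0]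
    exact not_lt.1 h1
  have := hmax.hasDerivAt_eq_zero hd
  have h2 : ∑ j, eval v (pderiv j F) * u j = eval v (pderiv i F) := by
    rw [Finset.sum_eq_single i]
    · simp [hu]
    · intro j _ hj
      simp [hu, hj]
    · intro h
      exact absurd (Finset.mem_univ i) h
  rw [h2] at this
  exact hi this

end Pool.Agent.H3.LC
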