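import Pool.Agent.H3.LC.Final

/-!
# From arbitrary linear forms to pairwise nonproportional ones
-/

open MvPolynomial

namespace Pool.Agent.H3.LC

/-- A form of degree one is a linear functional. -/
theorem exists_linear (p : MvPolynomial (Fin 3) ℝ) (hp : p.IsHomogeneous 1) :
    ∃ f : (Fin 3 → ℝ) →ₗ[ℝ] ℝ, ∀ v, eval v p = f v := by
  have h1 := hp.sum_X_mul_pderiv
  rw [one_smul] at h1
  have h2 : ∀ i, ∃ a : ℝ, pderiv i p = C a := by
    intro i
    have h3 : (pderiv i p).IsHomogeneous 0 := hp.pderiv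
    have h4 := (totalDegree_zero_iff_isHomogeneous (p := pderiv i p)).2 h3
    exact ⟨_, totalDegree_eq_zero_iff_eq_C.1 h4⟩
  choose a ha using h2
  refine ⟨∑ i, a i • LinearMap.proj i, fun v => ?_⟩
  rw [← h1]
  simp only [ha, map_sum, map_mul, eval_X, eval_C, LinearMap.sum_apply, LinearMap.smul_apply,
    LinearMap.proj_apply, smul_eq_mul]
  exact Finset.sum_congr rfl fun i _ => mul_comm _ _

theorem eval_smul_form {d : ℕ} (G : MvPolynomial (Fin 3) ℝ) (hG : G.IsHomogeneous d) (c : ℝ)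
    (x : Fin 3 → ℝ) : eval (c • x) G = c ^ d * eval x G := by
  rw [eval_eq', eval_eq', Finset.mul_sum]
  refine Finset.sum_congr rfl fun e he => ?_
  have h2 : ∑ i, e i = d := by
    have := hG (mem_support_iff.1 he)
    rw [Finsupp.weight_eq_sum] at this
    simpa using this
  simp only [Pi.smul_apply, smul_eq_mul, mul_pow, Finset.prod_mul_distrib,
    Finset.prod_pow_eq_pow_sum, h2]
  ring

variable {d : ℕ} (g : Fin d → (Fin 3 → ℝ) →ₗ[ℝ] ℝ)

/-- proportionality -/
def prop (hg : ∀ i, g i ≠ 0) : Setoid (Fin d) where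
  r i j := ∃ c : ℝ, g j = c • g i
  iseqv := by
    refine ⟨fun i => ⟨1, by simp⟩, ?_, ?_⟩
    · rintro i j ⟨c, hc⟩
      have hc0 : c ≠ 0 := by
        rintro rfl
        exact hg j (by rw [hc, zero_smul])
      exact ⟨c⁻¹, by rw [hc, smul_smul, inv_mul_cancel₀ hc0, one_smul]⟩
    · rintro i j k ⟨a, ha⟩ ⟨b, hb⟩
      exact ⟨b * a, by rw [hb, ha, smul_smul]⟩

theorem exists_data (hg : ∀ i, g i ≠ 0) :
    ∃ (ι : Type) (_ : Fintype ι) (f : ι → (Fin 3 → ℝ) →ₗ[ℝ] ℝ) (C : ℝ) (m : ι → ℕ),
      (∀ i, f i ≠ 0) ∧ (∀ i j, i ≠ j → ∀ c : ℝ, f j ≠ c • f i) ∧ (∀ i, 0 < m i) ∧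
      ∑ i, m i = d ∧ ∀ v, ∏ i, g i v = prodForm f C m v := by
  classical
  set S := prop g hg with hS
  have hout : ∀ i : Fin d, ∃ c : ℝ, g i = c • g (Quotient.mk S i).out := by
    intro i
    have : S.r (Quotient.mk S i).out i := Quotient.mk_out (s := S) i
    exact this
  choose c hc using hout
  refine ⟨Quotient S, inferInstance, fun q => g q.out, ∏ i, c i,
    fun q => (Finset.univ.filter fun i => Quotient.mk S i = q).card, fun q => hg _, ?_, ?_, ?_, ?_⟩
  · intro q r hqr b hb
    apply hqr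
    have : S.r q.out r.out := ⟨b, hb⟩
    have h2 : Quotient.mk S q.out = Quotient.mk S r.out := Quotient.sound this
    rwa [Quotient.out_eq, Quotient.out_eq] at h2
  · intro q
    apply Finset.card_pos.2
    exact ⟨q.out, by simp⟩
  · rw [← Finset.card_eq_sum_card_fiberwise (f := fun i => Quotient.mk S i)
      (s := Finset.univ) (t := Finset.univ) (fun _ _ => Finset.mem_coe.2 (Finset.mem_univ _))]
    exact Finset.card_fin d
  · intro v
    unfold prodForm
    have h1 : ∀ i, g i v = c i * g (Quotient.mk S i).out v := by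
      intro i
      conv_lhs => rw [hc i]
      rw [LinearMap.smul_apply, smul_eq_mul]
    rw [Finset.prod_congr rfl (fun i _ => h1 i), Finset.prod_mul_distrib]
    congr 1
    rw [← Finset.prod_fiberwise Finset.univ (fun i => Quotient.mk S i)]
    refine Finset.prod_congr rfl fun q _ => ?_
    rw [Finset.prod_congr rfl (g := fun _ => g q.out v), Finset.prod_const]
    intro i hi
    rw [(Finset.mem_filter.1 hi).2]

end Pool.Agent.H3.LC
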