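import Pool.Agent.H3.LC.Count
import Pool.Agent.H3.LC.Cone
import Pool.Agent.H3.LC.Mahler

/-!
# The regions on which a product of linear forms is larger than a convex form
-/

namespace Pool.Agent.H3.LC

open Finset

variable {E : Type*} [NormedAddCommGroup E] [NormedSpace ℝ E] [FiniteDimensional ℝ E]
variable {ι : Type*} [Fintype ι]

/-- the product -/
noncomputable def prodForm (f : ι → E →ₗ[ℝ] ℝ) (C : ℝ) (m : ι → ℕ) (x : E) : ℝ :=
  C * ∏ i, f i x ^ m i

/-- the closed region -/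
def KK (f : ι → E →ₗ[ℝ] ℝ) (C : ℝ) (m : ι → ℕ) (G : E → ℝ) (s : ι → Bool) : Set E :=
  {x | (∀ i, 0 ≤ sg (s i) * f i x) ∧ G x ≤ prodForm f C m x}

/-- the open region -/
def UU (f : ι → E →ₗ[ℝ] ℝ) (C : ℝ) (m : ι → ℕ) (G : E → ℝ) (s : ι → Bool) : Set E :=
  {x | (∀ i, 0 < sg (s i) * f i x) ∧ G x < prodForm f C m x}

theorem prodForm_eq (f : ι → E →ₗ[ℝ] ℝ) (C : ℝ) (m : ι → ℕ) (s : ι → Bool) (x : E) :
    prodForm f C m x = (C * ∏ i, sg (s i) ^ m i) * ∏ i, (sg (s i) * f i x) ^ m i := by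
  unfold prodForm
  rw [mul_assoc, ← prod_mul_distrib]
  congr 1
  refine prod_congr rfl fun i _ => ?_
  rw [← mul_pow, ← mul_assoc, sg_mul_self, one_mul]

theorem prodForm_smul (f : ι → E →ₗ[ℝ] ℝ) (C : ℝ) (m : ι → ℕ) (c : ℝ) (x : E) :
    prodForm f C m (c • x) = c ^ (∑ i, m i) * prodForm f C m x := by
  unfold prodForm
  have : ∏ i, f i (c • x) ^ m i = c ^ (∑ i, m i) * ∏ i, f i x ^ m i := by
    rw [← prod_pow_eq_pow_sum, ← prod_mul_distrib]
    refine prod_congr rfl fun i _ => ?_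
    rw [map_smul, smul_eq_mul, mul_pow]
  rw [this]
  ring

theorem continuous_prodForm (f : ι → E →ₗ[ℝ] ℝ) (C : ℝ) (m : ι → ℕ) :
    Continuous (prodForm f C m) := by
  unfold prodForm
  refine continuous_const.mul (continuous_finset_prod _ fun i _ => ?_)
  exact ((f i).continuous_of_finiteDimensional).pow _

theorem add_mem_aux (f : ι → E →ₗ[ℝ] ℝ) (C : ℝ) (m : ι → ℕ) (hm : ∀ i, 0 < m i)
    (hd : 0 < ∑ i, m i) (s : ι → Bool) (hs : 0 < C * ∏ i, sg (s i) ^ m i)
    {G : E → ℝ} (hG : ConvexForm G (∑ i, m i)) {x y : E}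
    (hx : x ∈ KK f C m G s) (hy : y ∈ KK f C m G s) :
    G (x + y) ≤ prodForm f C m (x + y) ∧ (G y < prodForm f C m y →
      G (x + y) < prodForm f C m (x + y)) := by
  set κ := C * ∏ i, sg (s i) ^ m i with hκ
  have e : ∀ z : E, (∀ i, 0 ≤ sg (s i) * f i z) →
      prodForm f C m z = gm m κ (fun i => sg (s i) * f i z) ^ (∑ i, m i) := by
    intro z hz
    rw [gm_pow m hs.le hz hd, prodForm_eq f C m s]
  have hxy : ∀ i, 0 ≤ sg (s i) * f i (x + y) := by
    intro i
    rw [map_add, mul_add]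
    exact add_nonneg (hx.1 i) (hy.1 i)
  have hadd : gm m κ (fun i => sg (s i) * f i x) + gm m κ (fun i => sg (s i) * f i y) ≤
      gm m κ (fun i => sg (s i) * f i (x + y)) := by
    have := gm_add m hs.le hx.1 hy.1 hm hd
    simpa only [map_add, mul_add] using this
  have n1 := gm_nonneg m hs.le hx.1
  have n2 := gm_nonneg m hs.le hy.1
  have hx2 := hx.2
  have hy2 := hy.2
  rw [e x hx.1] at hx2
  rw [e y hy.1] at hy2
  constructor
  · rw [e _ hxy]
    exact (hG.add_le n1 n2 hx2 hy2).trans (pow_le_pow_left₀ (add_nonneg n1 n2) hadd _)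
  · intro hlt
    rw [e y hy.1] at hlt
    obtain ⟨β, hβ0, hβ, hGβ⟩ := hG.exists_root n2 hlt
    rw [e _ hxy]
    refine (hG.add_le n1 hβ0 hx2 hGβ).trans_lt ?_
    exact pow_lt_pow_left₀ (by linarith) (add_nonneg n1 hβ0) hd.ne'

theorem coneData (f : ι → E →ₗ[ℝ] ℝ) (C : ℝ) (m : ι → ℕ) (hm : ∀ i, 0 < m i)
    (hd : 0 < ∑ i, m i) (s : ι → Bool) (hs : 0 < C * ∏ i, sg (s i) ^ m i)
    {G : E → ℝ} (hG : ConvexForm G (∑ i, m i)) (hGc : Continuous G) (i₀ : ι) :
    ConeData (KK f C m G s) (UU f C m G s) (sg (s i₀) • f i₀) where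
  closed := by
    have h1 : KK f C m G s = (⋂ i, {x | 0 ≤ sg (s i) * f i x}) ∩
        {x | G x ≤ prodForm f C m x} := by
      ext x
      simp [KK]
    rw [h1]
    refine IsClosed.inter (isClosed_iInter fun i => ?_)
      (isClosed_le hGc (continuous_prodForm f C m))
    exact isClosed_le continuous_const
      (continuous_const.mul ((f i).continuous_of_finiteDimensional))
  isOpen := by
    have h1 : UU f C m G s = (⋂ i, {x | 0 < sg (s i) * f i x}) ∩
        {x | G x < prodForm f C m x} := by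
      ext x
      simp [UU]
    rw [h1]
    refine IsOpen.inter (isOpen_iInter_of_finite fun i => ?_)
      (isOpen_lt hGc (continuous_prodForm f C m))
    exact isOpen_lt continuous_const
      (continuous_const.mul ((f i).continuous_of_finiteDimensional))
  sub := fun x hx => ⟨fun i => (hx.1 i).le, hx.2.le⟩
  add := by
    intro x hx y hy
    refine ⟨fun i => ?_, (add_mem_aux f C m hm hd s hs hG hx hy).1⟩
    rw [map_add, mul_add]
    exact add_nonneg (hx.1 i) (hy.1 i)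
  smul := by
    intro c hc x hx
    refine ⟨fun i => ?_, ?_⟩
    · rw [map_smul, smul_eq_mul, mul_left_comm]
      exact mul_nonneg hc.le (hx.1 i)
    · rw [hG.hom, prodForm_smul]
      exact mul_le_mul_of_nonneg_left hx.2 (pow_nonneg hc.le _)
  addU := by
    intro x hx u hu
    have hu' : u ∈ KK f C m G s := ⟨fun i => (hu.1 i).le, hu.2.le⟩
    refine ⟨fun i => ?_, (add_mem_aux f C m hm hd s hs hG hx hu').2 hu.2⟩
    rw [map_add, mul_add]
    exact add_pos_of_nonneg_of_pos (hx.1 i) (hu.1 i)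
  smulU := by
    intro c hc x hx
    refine ⟨fun i => ?_, ?_⟩
    · rw [map_smul, smul_eq_mul, mul_left_comm]
      exact mul_pos hc (hx.1 i)
    · rw [hG.hom, prodForm_smul]
      exact mul_lt_mul_of_pos_left hx.2 (pow_pos hc _)
  lamK := fun x hx => by
    rw [LinearMap.smul_apply, smul_eq_mul]
    exact hx.1 i₀
  lamU := fun x hx => by
    rw [LinearMap.smul_apply, smul_eq_mul]
    exact hx.1 i₀

/-- The zeros in the closed region. -/
theorem boundary_eq (f : ι → E →ₗ[ℝ] ℝ) (C : ℝ) (m : ι → ℕ) (hm : ∀ i, 0 < m i)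
    (s : ι → Bool) {G : E → ℝ} (hG : ConvexForm G (∑ i, m i)) (x : E) :
    (x ∈ KK f C m G s ∧ x ∉ UU f C m G s ∧ x ≠ 0) ↔
      ((∀ i, 0 ≤ sg (s i) * f i x) ∧ prodForm f C m x = G x ∧ x ≠ 0) := by
  constructor
  · rintro ⟨h1, h2, h3⟩
    refine ⟨h1.1, ?_, h3⟩
    by_contra hne
    have hlt : G x < prodForm f C m x := lt_of_le_of_ne h1.2 (Ne.symm hne)
    apply h2
    refine ⟨fun i => lt_of_le_of_ne (h1.1 i) ?_, hlt⟩
    intro h0
    have h4 : f i x = 0 := (mul_eq_zero.1 h0.symm).resolve_left (sg_ne _)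
    have h5 : prodForm f C m x = 0 := by
      unfold prodForm
      rw [prod_eq_zero (mem_univ i) (by rw [h4, zero_pow (hm i).ne']), mul_zero]
    rw [h5] at hlt
    have := hG.nonneg x
    linarith
  · rintro ⟨h1, h2, h3⟩
    exact ⟨⟨h1, h2.ge⟩, fun hU => absurd hU.2 (by rw [h2]; exact lt_irrefl _), h3⟩

/-- The zeros in a closed region with a positive point form a connected set. -/
theorem isPreconnected_zeros (hE : 3 ≤ Module.finrank ℝ E) (f : ι → E →ₗ[ℝ] ℝ) (C : ℝ)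
    (m : ι → ℕ) (hm : ∀ i, 0 < m i) (hd : 0 < ∑ i, m i) (s : ι → Bool)
    (hs : 0 < C * ∏ i, sg (s i) ^ m i) {G : E → ℝ} (hG : ConvexForm G (∑ i, m i))
    (hGc : Continuous G) (p : E) (hp : p ∈ UU f C m G s) :
    IsPreconnected {x | (∀ i, 0 ≤ sg (s i) * f i x) ∧ prodForm f C m x = G x ∧ x ≠ 0} := by
  have hne : Nonempty ι := by
    by_contra hcon
    rw [not_nonempty_iff] at hcon
    simp at hd
  obtain ⟨i₀⟩ := hne
  have h := (coneData f C m hm hd s hs hG hGc i₀).isConnected_boundary hp hE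
  have heq : {x | x ∈ KK f C m G s ∧ x ∉ UU f C m G s ∧ x ≠ 0} =
      {x | (∀ i, 0 ≤ sg (s i) * f i x) ∧ prodForm f C m x = G x ∧ x ≠ 0} := by
    ext x
    exact boundary_eq f C m hm s hG x
  rwa [heq] at h

end Pool.Agent.H3.LC
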