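import Mathlib

/-!
# Sign vectors of linear forms on a plane
-/

namespace Pool.Agent.H3.LC

open Finset

/-- the sign of a Boolean -/
def sg (b : Bool) : ℝ := if b then 1 else -1

theorem sg_true : sg true = 1 := rfl
theorem sg_false : sg false = -1 := rfl

theorem sg_ne (b : Bool) : sg b ≠ 0 := by cases b <;> simp [sg]

theorem sg_mul_self (b : Bool) : sg b * sg b = 1 := by cases b <;> simp [sg]

theorem sg_not (b : Bool) : sg (!b) = -sg b := by cases b <;> simp [sg]

theorem sg_decide {r : ℝ} (b : Bool) (h : 0 < sg b * r) : b = decide (0 < r) := by
  cases b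
  · simp [sg] at h ⊢
    exact h.le
  · simp [sg] at h ⊢
    exact h

theorem sg_decide_pos {r : ℝ} (h : r ≠ 0) : 0 < sg (decide (0 < r)) * r := by
  rcases lt_or_gt_of_ne h with h | h
  · have : ¬ 0 < r := not_lt.2 h.le
    simp [sg, this]
    exact h
  · simp [sg, h]

variable {V : Type*} [AddCommGroup V] [Module ℝ V]

/-- The sign vectors of the linear forms `f i` at the points where none of them vanishes. -/
def Realized {ι : Type*} (f : ι → V →ₗ[ℝ] ℝ) : Set (ι → Bool) :=
  {s | ∃ x, ∀ i, 0 < sg (s i) * f i x}

/-- On a plane `m ≥ 1` linear forms have at most `2 m` sign vectors. -/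
theorem realized_plane
    (hV : ∀ φ : V →ₗ[ℝ] ℝ, φ ≠ 0 → ∃ v : V, ∀ z, φ z = 0 → ∃ c : ℝ, z = c • v) :
    ∀ (m : ℕ) (f : Fin (m + 1) → V →ₗ[ℝ] ℝ), (∀ i, f i ≠ 0) →
      (Realized f).ncard ≤ 2 * (m + 1) := by
  classical
  intro m
  induction m with
  | zero =>
    intro f _
    calc (Realized f).ncard ≤ (Set.univ : Set (Fin 1 → Bool)).ncard :=
          Set.ncard_le_ncard (Set.subset_univ _) Set.finite_univ
      _ = 2 * (0 + 1) := by
          rw [Set.ncard_univ, Nat.card_eq_fintype_card]
          simp
  | succ m ih =>
    intro f hf
    set g : Fin (m + 1) → V →ₗ[ℝ] ℝ := fun i => f i.castSucc with hg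
    have h1 := ih g fun i => hf _
    obtain ⟨v, hv⟩ := hV (f (Fin.last (m + 1))) (hf _)
    set S : Finset (Fin (m + 2) → Bool) := (Set.toFinite (Realized f)).toFinset with hS
    set S' : Finset (Fin (m + 1) → Bool) := (Set.toFinite (Realized g)).toFinset with hS'
    have hSm : ∀ s, s ∈ S ↔ s ∈ Realized f := fun s => by simp [hS]
    have hSm' : ∀ s, s ∈ S' ↔ s ∈ Realized g := fun s => by simp [hS']
    have c1 : (Realized f).ncard = S.card := Set.ncard_eq_toFinset_card _
    have c2 : (Realized g).ncard = S'.card := Set.ncard_eq_toFinset_card _
    rw [c1]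
    rw [c2] at h1
    -- the restriction
    set r : (Fin (m + 2) → Bool) → (Fin (m + 1) → Bool) := fun s i => s i.castSucc with hr
    have hmap : ∀ s ∈ S, r s ∈ S' := by
      intro s hs
      rw [hSm] at hs
      rw [hSm']
      obtain ⟨x, hx⟩ := hs
      exact ⟨x, fun i => hx _⟩
    set B : Finset (Fin (m + 1) → Bool) := S'.filter fun t =>
      (∃ s ∈ S, r s = t ∧ s (Fin.last _) = true) ∧ ∃ s ∈ S, r s = t ∧ s (Fin.last _) = false
      with hB
    have hBc : B.card ≤ 2 := by
      have hsub : B ⊆ {fun i => decide (0 < g i v), fun i => decide (0 < g i (-v))} := by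
        intro t ht
        rw [hB, mem_filter] at ht
        obtain ⟨_, ⟨s, hs, hst, hsl⟩, s', hs', hst', hsl'⟩ := ht
        rw [hSm] at hs hs'
        obtain ⟨x, hx⟩ := hs
        obtain ⟨y, hy⟩ := hs'
        have e1 : 0 < f (Fin.last _) x := by
          have := hx (Fin.last _)
          rw [hsl, sg_true, one_mul] at this
          exact this
        have e2 : f (Fin.last _) y < 0 := by
          have := hy (Fin.last _)
          rw [hsl', sg_false] at this
          linarith
        set z : V := (-f (Fin.last _) y) • x + (f (Fin.last _) x) • y with hz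
        have hz0 : f (Fin.last _) z = 0 := by
          simp only [hz, map_add, map_smul, smul_eq_mul]
          ring
        obtain ⟨c, hc⟩ := hv z hz0
        have hzp : ∀ i, 0 < sg (t i) * g i z := by
          intro i
          have a1 : 0 < sg (t i) * g i x := by
            have := hx i.castSucc
            rw [← hst]
            exact this
          have a2 : 0 < sg (t i) * g i y := by
            have := hy i.castSucc
            rw [← hst']
            exact this
          have : sg (t i) * g i z = (-f (Fin.last _) y) * (sg (t i) * g i x) +
              f (Fin.last _) x * (sg (t i) * g i y) := by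
            simp only [hz, map_add, map_smul, smul_eq_mul]
            ring
          rw [this]
          have := mul_pos (neg_pos.2 e2) a1
          have := mul_pos e1 a2
          linarith
        rw [mem_insert, mem_singleton]
        rcases lt_trichotomy c 0 with h | h | h
        · right
          funext i
          apply sg_decide
          have := hzp i
          rw [hc, map_smul, smul_eq_mul] at this
          rw [map_neg]
          have h' : 0 < -c := by linarith
          have h2 : 0 < (-c) * (sg (t i) * -g i v) := by linarith
          exact (mul_pos_iff_of_pos_left h').1 h2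
        · exfalso
          have := hzp 0
          rw [hc, h, zero_smul, map_zero, mul_zero] at this
          exact lt_irrefl _ this
        · left
          funext i
          apply sg_decide
          have := hzp i
          rw [hc, map_smul, smul_eq_mul] at this
          have h2 : 0 < c * (sg (t i) * g i v) := by linarith
          exact (mul_pos_iff_of_pos_left h).1 h2
      exact (card_le_card hsub).trans (card_le_two)
    -- fibres
    have hfib : S.card ≤ ∑ t ∈ S', (1 + if t ∈ B then 1 else 0) := by
      rw [card_eq_sum_card_fiberwise hmap]
      refine sum_le_sum fun t ht => ?_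
      by_cases htB : t ∈ B
      · rw [if_pos htB]
        have : (S.filter fun s => r s = t) ⊆
            {Fin.snoc (α := fun _ => Bool) t true, Fin.snoc (α := fun _ => Bool) t false} := by
          intro s hs
          rw [mem_filter] at hs
          rw [mem_insert, mem_singleton]
          have hs2 : s = Fin.snoc (α := fun _ => Bool) t (s (Fin.last _)) := by
            rw [← hs.2]
            funext i
            refine Fin.lastCases ?_ (fun j => ?_) i
            · simp
            · simp [hr]
          rcases hb : s (Fin.last _) with _ | _
          · right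
            rw [hs2, hb]
          · left
            rw [hs2, hb]
        exact (card_le_card this).trans card_le_two
      · rw [if_neg htB, add_zero]
        rw [card_le_one]
        intro s hs s' hs'
        rw [mem_filter] at hs hs'
        have key : s (Fin.last _) = s' (Fin.last _) := by
          by_contra hne
          apply htB
          rw [hB, mem_filter]
          refine ⟨ht, ?_⟩
          rcases hb : s (Fin.last _) with _ | _
          · rw [hb] at hne
            have hb' : s' (Fin.last _) = true := by
              rcases hb' : s' (Fin.last _) with _ | _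
              · exact absurd hb'.symm hne
              · rfl
            exact ⟨⟨s', hs'.1, hs'.2, hb'⟩, s, hs.1, hs.2, hb⟩
          · rw [hb] at hne
            have hb' : s' (Fin.last _) = false := by
              rcases hb' : s' (Fin.last _) with _ | _
              · rfl
              · exact absurd hb'.symm hne
            exact ⟨⟨s, hs.1, hs.2, hb⟩, s', hs'.1, hs'.2, hb'⟩
        funext i
        refine Fin.lastCases ?_ (fun j => ?_) i
        · exact key
        · have := congrFun (hs.2.trans hs'.2.symm) j
          exact this
    have hsum : ∑ t ∈ S', (1 + if t ∈ B then 1 else 0) = S'.card + B.card := by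
      rw [sum_add_distrib, sum_const, smul_eq_mul, mul_one, sum_ite_mem, sum_const, smul_eq_mul,
        mul_one, inter_eq_right.2 (filter_subset _ _)]
    omega

/-- The same for an arbitrary nonempty finite index set. -/
theorem realized_plane' {ι : Type*} [Finite ι]
    (hV : ∀ φ : V →ₗ[ℝ] ℝ, φ ≠ 0 → ∃ v : V, ∀ z, φ z = 0 → ∃ c : ℝ, z = c • v)
    (f : ι → V →ₗ[ℝ] ℝ) (hf : ∀ i, f i ≠ 0) (h0 : Nonempty ι) :
    (Realized f).ncard ≤ 2 * Nat.card ι := by
  classical
  have := Fintype.ofFinite ι
  obtain ⟨m, hm⟩ : ∃ m, Fintype.card ι = m + 1 :=
    ⟨Fintype.card ι - 1, (Nat.succ_pred_eq_of_pos Fintype.card_pos).symm⟩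
  have e : Fin (m + 1) ≃ ι := (Fintype.equivFinOfCardEq hm).symm
  have h := realized_plane hV m (fun i => f (e i)) fun i => hf _
  rw [Nat.card_eq_fintype_card, hm]
  refine le_trans ?_ h
  have himg : Realized f = (fun s : Fin (m + 1) → Bool => fun i => s (e.symm i)) ''
      Realized (fun i => f (e i)) := by
    ext s
    constructor
    · rintro ⟨x, hx⟩
      refine ⟨fun i => s (e i), ⟨x, fun i => hx _⟩, ?_⟩
      funext i
      simp
    · rintro ⟨t, ⟨x, hx⟩, rfl⟩
      refine ⟨x, fun i => ?_⟩
      have := hx (e.symm i)
      simpa using this
  rw [himg]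
  exact Set.ncard_image_le (Set.toFinite _)

end Pool.Agent.H3.LC
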