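import Pool.Agent.H3.LC.Signs

/-!
# Every region of an arrangement of planes has at least three walls
-/

namespace Pool.Agent.H3.LC

open Finset

variable {E : Type*} [AddCommGroup E] [Module ℝ E]

/-- `j` is a wall of the region `s` -/
def IsWall {ι : Type*} (f : ι → E →ₗ[ℝ] ℝ) (s : ι → Bool) (j : ι) : Prop :=
  ∃ x, f j x = 0 ∧ ∀ i, i ≠ j → 0 < sg (s i) * f i x

theorem exists_sep {f g : E →ₗ[ℝ] ℝ} (hf : f ≠ 0) (h : ∀ c : ℝ, g ≠ c • f) :
    ∃ w, f w = 0 ∧ g w ≠ 0 := by
  by_contra hcon
  push Not at hcon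
  obtain ⟨x0, hx0⟩ : ∃ x, f x ≠ 0 := by
    by_contra h0
    push Not at h0
    exact hf (LinearMap.ext h0)
  apply h (g x0 / f x0)
  ext x
  have h1 : f (x - (f x / f x0) • x0) = 0 := by
    rw [map_sub, map_smul, smul_eq_mul]
    field_simp
    ring
  have h2 := hcon _ h1
  rw [map_sub, map_smul, smul_eq_mul, sub_eq_zero] at h2
  rw [h2, LinearMap.smul_apply, smul_eq_mul]
  field_simp

theorem three_walls {ι : Type*} [Fintype ι] [DecidableEq ι] [FiniteDimensional ℝ E]
    (hE : Module.finrank ℝ E = 3) (f : ι → E →ₗ[ℝ] ℝ) (hf : ∀ i, f i ≠ 0)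
    (hpair : ∀ i j, i ≠ j → ∀ c : ℝ, f j ≠ c • f i)
    (hker : ∀ v, (∀ i, f i v = 0) → v = 0) (s : ι → Bool) (hs : s ∈ Realized f)
    [DecidablePred (IsWall f s)] :
    3 ≤ (univ.filter (IsWall f s)).card := by
  classical
  obtain ⟨p, hp⟩ := hs
  set g : ι → E →ₗ[ℝ] ℝ := fun i => sg (s i) • f i with hg
  have hgx : ∀ i x, g i x = sg (s i) * f i x := fun i x => rfl
  have hgp : ∀ i, 0 < g i p := hp
  -- a minimal system of inequalities
  let P : Finset ι → Prop := fun I => ∀ x, (∀ i ∈ I, 0 < g i x) → ∀ k, 0 < g k x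
  have hP : P univ := fun x hx k => hx k (mem_univ k)
  obtain ⟨I, hI, hmin⟩ := Finset.exists_min_image
    ((univ : Finset (Finset ι)).filter P) (fun I => I.card) ⟨univ, by simp [hP]⟩
  rw [mem_filter] at hI
  have hIP : P I := hI.2
  have hwall : ∀ i ∈ I, IsWall f s i := by
    intro i hi
    have h1 : ¬ P (I.erase i) := by
      intro h
      have := hmin (I.erase i) (by simp [h])
      have h2 := card_erase_lt_of_mem hi
      omega
    simp only [P] at h1
    push Not at h1
    obtain ⟨y, hy, k, hk⟩ := h1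
    have hyi : g i y ≤ 0 := by
      by_contra h2
      push Not at h2
      have := hIP y (fun j hj => by
        rcases eq_or_ne j i with rfl | hne
        · exact h2
        · exact hy j (mem_erase.2 ⟨hne, hj⟩)) k
      linarith
    set x : E := (-g i y) • p + (g i p) • y with hx
    have hxi : g i x = 0 := by
      rw [hx, map_add, map_smul, map_smul, smul_eq_mul, smul_eq_mul]
      ring
    have hxj : ∀ j ∈ I.erase i, 0 < g j x := by
      intro j hj
      rw [hx, map_add, map_smul, map_smul, smul_eq_mul, smul_eq_mul]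
      have e1 := mul_pos (hgp i) (hy j hj)
      have e2 : 0 ≤ -g i y * g j p := mul_nonneg (by linarith) (hgp j).le
      linarith
    refine ⟨x, ?_, ?_⟩
    · have : sg (s i) * f i x = 0 := hxi
      exact (mul_eq_zero.1 this).resolve_left (sg_ne _)
    · intro j hj
      change 0 < g j x
      by_contra hcon
      push Not at hcon
      -- a direction in the wall along which `g j` decreases
      obtain ⟨w, hw1, hw2⟩ := exists_sep (hf i) (hpair i j hj.symm)
      obtain ⟨w, hw1, hw2⟩ : ∃ w, g i w = 0 ∧ g j w < 0 := by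
        have a1 : g i w = 0 := by rw [hgx, hw1, mul_zero]
        have a2 : g j w ≠ 0 := by rw [hgx]; exact mul_ne_zero (sg_ne _) hw2
        rcases lt_or_gt_of_ne a2 with h | h
        · exact ⟨w, a1, h⟩
        · exact ⟨-w, by rw [map_neg, a1, neg_zero], by rw [map_neg]; linarith⟩
      obtain ⟨δ, hδ, hδ0⟩ : ∃ δ : ℝ, (∀ t ∈ I.erase i, 0 < g t x + δ * g t w) ∧ 0 < δ := by
        have hev : ∀ᶠ δ in nhdsWithin (0 : ℝ) (Set.Ioi 0), ∀ t ∈ I.erase i,
            0 < g t x + δ * g t w := by
          rw [Filter.eventually_all_finset]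
          intro t ht
          have hcont : Continuous fun δ : ℝ => g t x + δ * g t w := by fun_prop
          have h0 : (0 : ℝ) < g t x + 0 * g t w := by
            rw [zero_mul, add_zero]
            exact hxj t ht
          exact (hcont.continuousAt.eventually (lt_mem_nhds h0)).filter_mono nhdsWithin_le_nhds
        obtain ⟨δ, h1, h2⟩ := (hev.and self_mem_nhdsWithin).exists
        exact ⟨δ, h1, h2⟩
      have hbad : ∀ ε : ℝ, 0 < ε → 0 < g j x + δ * g j w + ε * g j p := by
        intro ε hε
        have := hIP (x + δ • w + ε • p) (fun t ht => by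
          rw [map_add, map_add, map_smul, map_smul, smul_eq_mul, smul_eq_mul]
          rcases eq_or_ne t i with rfl | hne
          · rw [hxi, hw1]
            have := mul_pos hε (hgp t)
            linarith
          · have e1 := hδ t (mem_erase.2 ⟨hne, ht⟩)
            have e2 := mul_pos hε (hgp t)
            linarith) j
        rwa [map_add, map_add, map_smul, map_smul, smul_eq_mul, smul_eq_mul] at this
      have e3 : 0 < -(δ * g j w) := by
        have := mul_pos hδ0 (neg_pos.2 hw2)
        linarith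
      have := hbad (-(δ * g j w) / g j p) (div_pos e3 (hgp j))
      rw [div_mul_cancel₀ _ (hgp j).ne'] at this
      linarith
  have hcard : 3 ≤ I.card := by
    by_contra hlt
    push Not at hlt
    set Φ : E →ₗ[ℝ] (I → ℝ) := LinearMap.pi fun i => g i with hΦ
    have hk : LinearMap.ker Φ ≠ ⊥ := by
      apply LinearMap.ker_ne_bot_of_finrank_lt
      rw [hE, Module.finrank_fintype_fun_eq_card, Fintype.card_coe]
      exact hlt
    obtain ⟨v, hv, hv0⟩ := (Submodule.ne_bot_iff _).1 hk
    have hvI : ∀ i ∈ I, g i v = 0 := by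
      intro i hi
      have := congrFun (LinearMap.mem_ker.1 hv) ⟨i, hi⟩
      simpa [hΦ] using this
    apply hv0
    apply hker
    intro k
    have hall : ∀ t : ℝ, 0 < g k p + t * g k v := by
      intro t
      have := hIP (p + t • v) (fun i hi => by
        rw [map_add, map_smul, smul_eq_mul, hvI i hi, mul_zero, add_zero]
        exact hgp i) k
      rwa [map_add, map_smul, smul_eq_mul] at this
    have h0 : g k v = 0 := by
      by_contra hne
      have := hall (-(g k p) / g k v)
      rw [div_mul_cancel₀ _ hne] at this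
      linarith
    rw [hgx] at h0
    exact (mul_eq_zero.1 h0).resolve_left (sg_ne _)
  refine hcard.trans (card_le_card fun i hi => ?_)
  rw [mem_filter]
  exact ⟨mem_univ i, hwall i hi⟩

/-- planes -/
theorem plane_ker {V : Type*} [AddCommGroup V] [Module ℝ V] [FiniteDimensional ℝ V]
    (hV : Module.finrank ℝ V = 2) (φ : V →ₗ[ℝ] ℝ) (hφ : φ ≠ 0) :
    ∃ v : V, ∀ z, φ z = 0 → ∃ c : ℝ, z = c • v := by
  have h1 := LinearMap.finrank_range_add_finrank_ker φ
  have h2 : Module.finrank ℝ (LinearMap.range φ) = 1 := by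
    rw [LinearMap.range_eq_top.2 (LinearMap.surjective hφ), finrank_top, Module.finrank_self]
  have h3 : Module.finrank ℝ (LinearMap.ker φ) = 1 := by omega
  obtain ⟨v, _, hv⟩ := finrank_eq_one_iff'.1 h3
  refine ⟨v, fun z hz => ?_⟩
  obtain ⟨c, hc⟩ := hv ⟨z, LinearMap.mem_ker.2 hz⟩
  exact ⟨c, by rw [← Submodule.coe_smul, hc]⟩

end Pool.Agent.H3.LC
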